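import Pool.Agent.H24.RCM.Targets

/-!
# PRV: the pair of two products in the same class
-/

set_option autoImplicit false

open NumberField Polynomial nonZeroDivisors Pool.Agent.H26.NL Pool.Agent.H24.RCM

namespace Pool.Agent.H1.RCM

variable {d : ℕ} [hd : Fact d.Prime] {K : Type} [Field K] [NumberField K]
  [IsCyclotomicExtension {d} ℚ K]

theorem IV_pow {p k q : ℕ} (S : Sol d p k q) [Fact p.Prime] (n a : ℕ) (v : (ZMod d)ˣ → ℕ) :
    (IV S K n v) ^ a = IV S K (n * a) v := by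
  unfold IV
  rw [← Finset.prod_pow]
  refine Finset.prod_congr rfl fun t _ => ?_
  rw [← pow_mul]
  congr 1
  ring

theorem IV_ne {p k q : ℕ} (S : Sol d p k q) [Fact p.Prime] (n : ℕ) (v : (ZMod d)ˣ → ℕ) :
    IV S K n v ∈ (Ideal (𝓞 K))⁰ := by
  unfold IV
  exact prod_mem fun t _ => S.pr_pow_ne t _

theorem mk0_IV {p k q : ℕ} (S : Sol d p k q) [Fact p.Prime] (m : ℕ) (v : (ZMod d)ˣ → ℕ) :
    ClassGroup.mk0 ⟨IV S K m v, IV_ne S m v⟩ = CV S K m v := by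
  unfold CV
  have h1 : ∀ t, (S.cl K m t) ^ v t =
      ClassGroup.mk0 (⟨(S.pr K t) ^ m, S.pr_pow_ne t m⟩ ^ v t) := by
    intro t
    rw [Sol.cl, map_pow]
  rw [Finset.prod_congr rfl fun t _ => h1 t, ← map_prod]
  congr 1
  apply Subtype.ext
  rw [Submonoid.coe_finsetProd]
  unfold IV
  refine Finset.prod_congr rfl fun t _ => ?_
  rw [SubmonoidClass.coe_pow, ← pow_mul]

theorem CV_pow {p k q κ m : ℕ} (S : Sol d p k q) [Fact p.Prime] (hk : k = κ * m)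
    (v : (ZMod d)ˣ → ℕ) : (CV S K m v) ^ κ = 1 := by
  unfold CV
  rw [← Finset.prod_pow]
  refine Finset.prod_eq_one fun t _ => ?_
  rw [← pow_mul, mul_comm, pow_mul, S.cl_pow hk, one_pow]

theorem ng_ng (w : (ZMod d)ˣ → ℕ) : ng (ng w) = w := by
  funext t
  unfold ng
  rw [neg_neg]

theorem tw_neg (w : (ZMod d)ˣ → ℕ) : tw (-1) w = ng w := by
  funext t
  unfold ng tw
  rw [mul_neg, mul_one]

end Pool.Agent.H1.RCM

namespace Pool.Agent.H1.RCM

theorem pf_PRV (h1 : T_PVS) (h2 : T_IVS) : T_PRV := by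
  intro d _ K _ _ _ p k q κ m r _ S hk hκ1 hκ v w hcl
  have hodd : Odd d := by
    rcases (Fact.out : d.Prime).eq_two_or_odd' with h | h
    · have := S.hd2
      omega
    · exact h
  have hPV := h1 d K p k q S
  have hIV := h2 d K p k q S
  have hadd : ∀ v w : (ZMod d)ˣ → ℕ, PV d K q (v + w) = PV d K q v * PV d K q w :=
    fun v w => (hPV v w 1).2.2.2.2.1.symm
  have hsmul : ∀ (v : (ZMod d)ˣ → ℕ) (n : ℕ), PV d K q (n • v) = PV d K q v ^ n :=
    fun v n => ((hPV v v 1).2.2.2.2.2 n).symm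
  have hsub : ∀ v : (ZMod d)ˣ → ℕ, (q : 𝓞 K) ∣ PV d K q v - 1 := fun v => (hPV v v 1).2.1
  have hne : IV S K m v * IV S K (m * (κ - 1)) w ∈ (Ideal (𝓞 K))⁰ :=
    mul_mem (IV_ne S m v) (IV_ne S _ w)
  have h3 : ClassGroup.mk0 ⟨IV S K m v * IV S K (m * (κ - 1)) w, hne⟩ = 1 := by
    have h4 : ClassGroup.mk0 ⟨IV S K m v * IV S K (m * (κ - 1)) w, hne⟩
        = CV S K m v * (CV S K m w) ^ (κ - 1) := by
      rw [← mk0_IV, ← mk0_IV, ← map_pow, ← map_mul]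
      congr 1
      apply Subtype.ext
      rw [Submonoid.coe_mul, SubmonoidClass.coe_pow, IV_pow]
    rw [h4, hcl, ← pow_succ', Nat.sub_add_cancel hκ1, CV_pow S hk]
  rw [ClassGroup.mk0_eq_one_iff] at h3
  obtain ⟨⟨g, hg⟩⟩ := h3
  have hg' : IV S K m v * IV S K (m * (κ - 1)) w = Ideal.span {g} := hg
  have h4 : Ideal.span {g ^ κ} = Ideal.span {PV d K q v * PV d K q w ^ (κ - 1)} := by
    have e1 : (IV S K m v) ^ κ = Ideal.span {PV d K q v} := by
      rw [IV_pow, mul_comm m κ, ← hk]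
      exact (hIV v 1 0).2.2.2
    have e2 : (IV S K (m * (κ - 1)) w) ^ κ = Ideal.span {PV d K q w ^ (κ - 1)} := by
      rw [IV_pow, show m * (κ - 1) * κ = (κ * m) * (κ - 1) by ring, ← hk, ← IV_pow,
        (hIV w 1 0).2.2.2, Ideal.span_singleton_pow]
    rw [← Ideal.span_singleton_pow, ← hg', mul_pow, e1, e2,
      Ideal.span_singleton_mul_span_singleton]
  rw [Ideal.span_singleton_eq_span_singleton] at h4
  obtain ⟨u, hu⟩ := h4.symm
  obtain ⟨η, hη1, hη2⟩ := unit_root (K := K) hodd hκ (u := (u : 𝓞 K))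
    (u' := ((u⁻¹ : (𝓞 K)ˣ) : 𝓞 K)) (Units.mul_inv u)
  set c : 𝓞 K →+* 𝓞 K := sg (-1 : (ZMod d)ˣ) with hc
  have hcc : ∀ y : 𝓞 K, c (c y) = y := by
    intro y
    rw [hc, ← sg_mul]
    have : (-1 : (ZMod d)ˣ) * -1 = 1 := by simp
    rw [this, sg_one]
  have hcP : ∀ x : (ZMod d)ˣ → ℕ, c (PV d K q x) = PV d K q (ng x) := by
    intro x
    rw [hc, (hPV x x (-1)).1, tw_neg]
  refine ⟨g, g * PV d K q (ng w), η * c g * PV d K q w, u, ⟨u.isUnit, ?_, ?_, hsub _, hsub _,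
    ?_⟩, rfl, ⟨η, rfl⟩, ?_⟩
  · rw [mul_pow, ← hu, hadd, hadd, hsmul, hsmul]
    ring
  · have h3 : c (u : 𝓞 K) * c ((u⁻¹ : (𝓞 K)ˣ) : 𝓞 K) = 1 := by
      rw [← map_mul, Units.mul_inv, map_one]
    have h4 : (c g) ^ κ = PV d K q (ng v) * PV d K q (ng w) ^ (κ - 1) * c (u : 𝓞 K) := by
      rw [← map_pow, ← hu, map_mul, map_mul, map_pow, hcP, hcP]
    rw [mul_pow, mul_pow, hη2, h4, hadd, hadd, hsmul, hsmul]
    linear_combination
      (u : 𝓞 K) * PV d K q (ng v) * PV d K q (ng w) ^ (κ - 1) * PV d K q w ^ κ * h3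
  · rw [← hc, map_mul, map_mul, map_mul, hcP, hcP, hcc, ng_ng]
    linear_combination -(c g * g * PV d K q w * PV d K q (ng w)) * hη1
  · have h3 : g ∈ Ideal.span {g} := Ideal.mem_span_singleton_self g
    rw [← hg'] at h3
    exact Ideal.mul_le_right h3

end Pool.Agent.H1.RCM
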