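import Pool.Agent.H24.RCM.Targets

/-!
# PVS: the products of the conjugates
-/

set_option autoImplicit false

open NumberField Polynomial nonZeroDivisors Pool.Agent.H26.NL Pool.Agent.H24.RCM

namespace Pool.Agent.H1.RCM

theorem nm_prod' {K : Type} [Field K] [NumberField K] {ι : Type} (s : Finset ι) (f : ι → 𝓞 K) :
    nm (∏ i ∈ s, f i) = ∏ i ∈ s, nm (f i) := by
  classical
  induction s using Finset.induction_on with
  | empty =>
    rw [Finset.prod_empty, Finset.prod_empty]
    exact nm_unit isUnit_one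
  | insert a s ha ih => rw [Finset.prod_insert ha, Finset.prod_insert ha, nm_mul, ih]

theorem pf_PVS : T_PVS := by
  intro d _ K _ _ _ p k q _ S v w ρ
  refine ⟨?_, ?_, ?_, ?_, ?_, ?_⟩
  · unfold PV
    rw [map_prod]
    have h1 : ∀ t, sg ρ (Pi d K q t ^ v t) = Pi d K q (t * ρ⁻¹) ^ v t := by
      intro t
      rw [map_pow, sg_Pi]
    rw [Finset.prod_congr rfl fun t _ => h1 t]
    rw [← Equiv.prod_comp (Equiv.mulRight ρ)]
    refine Finset.prod_congr rfl fun t _ => ?_
    rw [Equiv.coe_mulRight, mul_inv_cancel_right]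
    rfl
  · unfold PV
    refine Finset.prod_induction _ (fun x => (q : 𝓞 K) ∣ x - 1) (fun a b ha hb =>
      Pool.Agent.H26.NL.mul_sub_one ha hb) ?_ fun t _ => pow_sub_one (Pi_sub_one _ _) _
    rw [sub_self]
    exact dvd_zero _
  · unfold PV
    exact Finset.prod_ne_zero_iff.2 fun t _ => pow_ne_zero _ (S.Pi_ne _)
  · unfold PV sm
    rw [nm_prod', Finset.mul_sum, ← Finset.prod_pow_eq_pow_sum]
    refine Finset.prod_congr rfl fun t _ => ?_
    rw [nm_pow, S.nm_Pi, ← pow_mul]
  · unfold PV
    rw [← Finset.prod_mul_distrib]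
    refine Finset.prod_congr rfl fun t _ => ?_
    rw [← pow_add]
    rfl
  · intro n
    unfold PV
    rw [← Finset.prod_pow]
    refine Finset.prod_congr rfl fun t _ => ?_
    rw [← pow_mul, mul_comm]
    rfl

end Pool.Agent.H1.RCM
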